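import Pool.Agent.Helper19.GR.Big

/-!
# MP_59b15d_al: congruence subgroups of mapping class groups grow at least like `x^(c (log x)^2)`

`c(x)` and `u(x)` are the numbers of congruence and of noncongruence subgroups of index at most
`x` of the extended mapping class group `Out(π_1(S_g))`.
-/

set_option autoImplicit false

namespace Pool.Agent.Results.MP_59b15d_al.CongruenceSubgroupGrowth

open Pool.Agent.Q98.CG

/-- the relator of the fundamental group of the closed orientable surface of genus `g` -/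
def relator (g : ℕ) : FreeGroup (Fin g ⊕ Fin g) :=
  (List.ofFn (fun i : Fin g =>
      FreeGroup.of (Sum.inl i : Fin g ⊕ Fin g) *
      FreeGroup.of (Sum.inr i : Fin g ⊕ Fin g) *
      (FreeGroup.of (Sum.inl i : Fin g ⊕ Fin g))⁻¹ *
      (FreeGroup.of (Sum.inr i : Fin g ⊕ Fin g))⁻¹)).prod

/-- the fundamental group of the closed orientable surface of genus `g` -/
def Surface (g : ℕ) : Type := PresentedGroup ({relator g} : Set (FreeGroup (Fin g ⊕ Fin g)))

instance (g : ℕ) : Group (Surface g) :=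
  inferInstanceAs (Group (PresentedGroup ({relator g} : Set (FreeGroup (Fin g ⊕ Fin g)))))

/-- `N` is the kernel of a homomorphism `f` of `H` onto the additive group of the `k × k` matrices
over `ℤ/p` -/
def KernelOnto {A : Type} [Group A] (H N : Subgroup A) (p k : ℕ) : Prop :=
  ∃ f : A → Fin k → Fin k → ZMod p, (∀ a ∈ H, ∀ b ∈ H, f (a * b) = f a + f b) ∧
    (∀ M, ∃ a ∈ H, f a = M) ∧ ∀ a, a ∈ N ↔ a ∈ H ∧ f a = 0

/-- the congruence subgroup property of `Out(G)`: every subgroup `H` of finite index of `Aut(G)`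
which contains the inner automorphisms contains all automorphisms which act on `G/K` as an inner
automorphism, for some characteristic subgroup `K` of finite index -/
def CSP (G : Type) [Group G] : Prop :=
  ∀ H : Subgroup (MulAut G), H.FiniteIndex → (∀ x, MulAut.conj x ∈ H) →
    ∃ K : Subgroup G, K.Characteristic ∧ K.FiniteIndex ∧
      ∀ φ : MulAut G, (∃ h : G, ∀ x : G, φ x * (h * x * h⁻¹)⁻¹ ∈ K) → φ ∈ H

/-- `x ^ ⌊⌊log₂ x⌋² / C⌋` -/
def qp (C x : ℕ) : ℕ := x ^ ((Nat.log 2 x) ^ 2 / C)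

lemma kernelOnto_of {A : Type} [Group A] {p k : ℕ} (H : Subgroup A)
    (f : H →* Multiplicative (Fin k × Fin k → ZMod p)) (h4 : Function.Surjective f) :
    KernelOnto H (f.ker.map H.subtype) p k := by
  classical
  refine ⟨fun a i j => if h : a ∈ H then Multiplicative.toAdd (f ⟨a, h⟩) (i, j) else 0,
    ?_, ?_, ?_⟩
  · intro a ha b hb
    funext i j
    have e : f ⟨a * b, H.mul_mem ha hb⟩ = f ⟨a, ha⟩ * f ⟨b, hb⟩ := by
      rw [← map_mul]
      rfl
    simp only [Pi.add_apply]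
    rw [dif_pos ha, dif_pos hb, dif_pos (H.mul_mem ha hb), e]
    rfl
  · intro M
    obtain ⟨a, ha⟩ := h4 (Multiplicative.ofAdd fun ij => M ij.1 ij.2)
    refine ⟨a.1, a.2, ?_⟩
    funext i j
    simp only
    rw [dif_pos a.2, ha]
    rfl
  · intro a
    constructor
    · rintro ⟨b, hb, rfl⟩
      refine ⟨b.2, ?_⟩
      funext i j
      simp only
      have hb' : f b = 1 := hb
      rw [dif_pos (show H.subtype b ∈ H from b.2), show f ⟨H.subtype b, b.2⟩ = 1 from hb']
      rfl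
    · rintro ⟨ha, hf⟩
      refine ⟨⟨a, ha⟩, ?_, rfl⟩
      show f ⟨a, ha⟩ = 1
      refine Multiplicative.toAdd.injective ?_
      funext ij
      have := congrFun (congrFun hf ij.1) ij.2
      simp only at this
      rw [dif_pos ha] at this
      exact this

/-- Let `g ≥ 3` and `Mod = Out(π_1(S_g))`. (1) For all `p ≥ 2` and `k ≥ 1`, `Mod` has a congruence
subgroup `H` of index at most `p ^ ((12 g² + 6 g) k)` with a homomorphism onto `(ℤ/p) ^ (k²)` whose
kernel `N` is a congruence subgroup. There is a `C ≥ 1` such that (2)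
`x ^ ⌊(log₂ x)² / C⌋ ≤ c(x)` for all large `x`; (3) the congruence subgroup property for `Mod`
holds if and only if `u(x) < x ^ ⌊(log₂ x)² / C⌋` for arbitrarily large `x`. (Logarithms are
rounded down.) -/
theorem result (g : ℕ) (hg : 3 ≤ g) :
    (∀ p k : ℕ, 2 ≤ p → 1 ≤ k → ∃ H N : Subgroup (MulAut (Surface g)),
      H.index ≠ 0 ∧ H.index ≤ p ^ ((12 * g ^ 2 + 6 * g) * k) ∧ KernelOnto H N p k ∧
      (∀ x, MulAut.conj x ∈ N) ∧ IsCong (Surface g) N) ∧
    ∃ C : ℕ, 0 < C ∧
      (∃ x₀ : ℕ, ∀ x : ℕ, x₀ ≤ x → (qp C x : ℕ∞) ≤ cong (Surface g) x) ∧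
      (CSP (Surface g) ↔
        ∀ x₀ : ℕ, ∃ x : ℕ, x₀ ≤ x ∧ noncong (Surface g) x < (qp C x : ℕ∞)) := by
  obtain ⟨n, rfl⟩ : ∃ n, g = n + 3 := ⟨g - 3, by omega⟩
  refine ⟨fun p k hp hk => ?_, ?_⟩
  · obtain ⟨H, h1, h2, h3, f, h4, h5, h6⟩ := Pool.Agent.Helper19.GR.exists_big hp n k hk
    exact ⟨H, f.ker.map H.subtype, h2, h3, kernelOnto_of H f h4,
      fun x => ⟨⟨_, h1 x⟩, h5 _ ⟨x, rfl⟩, rfl⟩, h6⟩
  · obtain ⟨C, h1, h2, _, h4⟩ := Pool.Agent.Helper19.GR.quad (G := Surf (n + 3))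
      (D := 12 * (n + 3) ^ 2 + 6 * (n + 3) + 1) (by positivity)
      fun k hk => Pool.Agent.Helper19.GR.cong_many' le_rfl n k hk
    exact ⟨C, h1, h2, h4⟩

end Pool.Agent.Results.MP_59b15d_al.CongruenceSubgroupGrowth
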