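import Pool.Agent.Helper20.PS.Fin

/-!
# The congruence subgroup problem and the elementary abelian 2-coverings

Let `G` be the fundamental group of the closed orientable surface `S` of genus `g ≥ 3` (the case
`g = 2` of the problem is known), so that `Out G` is the extended mapping class group. Let `K` be a subgroup of `G` which contains all squares;
these are the fundamental groups of the coverings of `S` with an elementary abelian 2-group as group
of deck transformations: the coverings of degree two, ..., the covering defined by
`H_1(S; ℤ/2)`. Let `γ_1 K = K`, `γ_2 K = [K, K]`, ... be the lower central series of `K` (in Mathlib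
`K.lowerCentralSeries c = γ_{c+1} K`).

Theorem: let `H` be a subgroup of finite index of `Aut G` which contains the automorphisms acting
trivially on `G / C` and on `G / γ_{c+1} K` for some `c`, some `K` as above and some characteristic
subgroup `C` of finite index (for example `C = G`: no condition). Then `H` contains the automorphisms
acting trivially on `G / Γ` for some characteristic subgroup `Γ` of finite index. If moreover `H`
contains the inner automorphisms then it contains all automorphisms acting as an inner automorphism
on `G / Γ`: the subgroup of the mapping class group defined by `H` contains a congruence subgroup.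

For `K = G` (Torelli group, Johnson filtration) this is in the library (JohnsonFiltration,
JohnsonTraces), where it is also shown (VirtuallyNilpotentQuotients) how to pass from `γ_2 K` to
`γ_{c+1} K`. New is the congruence subgroup property for the action on the homology of the
covering, `K / [K, K]`.

The proof. It is enough to treat the covering with the group `H_1(S; ℤ/2)`. Its rational homology is
the sum of the parts belonging to the characters `χ : G → {±1}`. For `χ = 1` this is `H_1(S)`, for
`χ ≠ 1` it is the homology of the Prym variety, of rank `2g - 2`; up to automorphisms of `G` the
character is standard, and the crossed homomorphisms for it give an explicit action of the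
automorphisms which are trivial modulo `6` on `ℤ^{2g-2}`. It is symplectic, and all symplectic
matrices of level 6 are realized (explicit automorphisms). Then (1) powers of products of Dehn twists
act trivially on the part of one character and as a transvection on the part of another one; with
commutators, for a normal subgroup `N` of finite index of `Aut G`, there are elements of `N` acting
trivially on all parts but one and as a transvection there; (2) a subgroup of `Sp_{2n}(ℤ)`, `n ≥ 2`,
which is normalized by a congruence subgroup and contains a power of a transvection, contains a
congruence subgroup (a form of the theorem of Bass, Milnor and Serre, which is proved here along the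
lines of the library file for `Sp_{2n}(ℤ)`, `n ≥ 3`). So the image of `N` in the product of the symplectic
groups of the parts contains a product of congruence subgroups. The torsion of the homology of the
covering is finite.

This is joint work of the seats helper9, helper14, helper20, helper31, helper32, helper38,
helper84, helper85 and helper98 (modules in `Pool/Agent/Helper20/PR` and `PS`).
-/

set_option autoImplicit false

namespace Pool.Agent.Results.MP_59b15d_al.ModTwoHomologyCover

/-- Let `G` be the fundamental group of the closed orientable surface of genus `g ≥ 3`, `K` a
subgroup which contains all squares, `C` a characteristic subgroup of finite index, and `H` a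
subgroup of finite index of `Aut G` which contains all automorphisms acting trivially on `G / C` and
on `G / γ_{c+1} K`. Then `H` contains all automorphisms acting trivially on `G / Γ` for a
characteristic subgroup `Γ` of finite index, and, if `H` contains the inner automorphisms, all
automorphisms which act on `G / Γ` as an inner automorphism. -/
theorem result (g : ℕ) (hg : 3 ≤ g) (G : Type) [Group G]
    (hG : Nonempty (G ≃* PresentedGroup
        ({(List.ofFn (fun i : Fin g =>
            FreeGroup.of (Sum.inl i : Fin g ⊕ Fin g) *
            FreeGroup.of (Sum.inr i : Fin g ⊕ Fin g) *
            (FreeGroup.of (Sum.inl i : Fin g ⊕ Fin g))⁻¹ *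
            (FreeGroup.of (Sum.inr i : Fin g ⊕ Fin g))⁻¹)).prod} :
          Set (FreeGroup (Fin g ⊕ Fin g)))))
    (K : Subgroup G) (hK : ∀ x : G, x ^ 2 ∈ K) (c : ℕ)
    (C : Subgroup G) (hC : C.Characteristic) (hC' : C.FiniteIndex)
    (H : Subgroup (MulAut G)) (hH : H.FiniteIndex)
    (h : ∀ φ : MulAut G, (∀ x : G, φ x * x⁻¹ ∈ C) →
      (∀ x : G, φ x * x⁻¹ ∈ K.lowerCentralSeries c) → φ ∈ H) :
    ∃ Γ : Subgroup G, Γ.Characteristic ∧ Γ.FiniteIndex ∧
      (∀ φ : MulAut G, (∀ x : G, φ x * x⁻¹ ∈ Γ) → φ ∈ H) ∧
      ((∀ x : G, MulAut.conj x ∈ H) →
        ∀ φ : MulAut G, (∃ y : G, ∀ x : G, φ x * (y * x * y⁻¹)⁻¹ ∈ Γ) → φ ∈ H) := by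
  obtain ⟨e⟩ := hG
  obtain ⟨n, rfl⟩ : ∃ n, g = n + 1 := ⟨g - 1, by omega⟩
  obtain ⟨Γ, h1, h2, h3⟩ := Pool.Agent.Helper20.PR.Fin.transport e
    (fun K hK c C hC hCf H hH h => Pool.Agent.Helper20.PS.Fin.aut (by omega) K hK c C hC hCf H hH h)
    K hK c C hC hC' H hH h
  exact ⟨Γ, h1, h2, h3, fun hinn φ hφ => Pool.Agent.Helper20.PR.Fin.outer h1 h3 hinn φ hφ⟩

end Pool.Agent.Results.MP_59b15d_al.ModTwoHomologyCover
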